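import Pool.Agent.Q274.IYB.Red
import Pool.Agent.Q274.IYB.Pos

/-!
A finite soluble group of order `1944 = 2 ^ 3 * 3 ^ 5` all of whose Sylow subgroups are
IYB-groups, and which is not an IYB-group (MP_bb5d5a_al, Q1: the answer is no).

The group is the semidirect product of the group `P` of order `3 ^ 5` and class three (the free
product of two groups of order three modulo the fourth term of its lower central series) with the
dihedral group `K` of order eight of the signed permutations of its two generators.
-/

namespace Pool.Agent.Results.MP_bb5d5a_al.SylowIYB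

universe u

/-- `(A, +, *)`, with `(A, +)` an abelian group and `(A, *)` a group, is a left brace. -/
def IsLeftBrace (A : Type u) [AddCommGroup A] [Group A] : Prop :=
  ∀ a b c : A, a * (b + c) + a = a * b + a * c

/-- `G` is an IYB-group: it is isomorphic to the multiplicative group of some finite left brace
(whose underlying set lies in `Type u`). -/
def IsIYB (G : Type) [Group G] : Prop :=
  ∃ (A : Type u) (_ : AddCommGroup A) (_ : Group A),
    Finite A ∧ IsLeftBrace A ∧ Nonempty (G ≃* A)

open Pool.Agent.Q274.IYB

theorem isIYB_of_equiv {G H : Type} [Group G] [Group H] (e : G ≃* H) (h : IsIYB.{0} H) :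
    IsIYB.{0} G := by
  obtain ⟨A, i1, i2, h1, h2, ⟨f⟩⟩ := h
  exact ⟨A, i1, i2, h1, h2, ⟨e.trans f⟩⟩

theorem iyb_P : IsIYB.{0} P := by
  letI := addP
  refine ⟨P, addP, inferInstance, inferInstance, ?_, ⟨MulEquiv.refl P⟩⟩
  intro a b c
  rw [braceP]
  abel

theorem iyb_K : IsIYB.{0} K := by
  letI := addK
  refine ⟨K, addK, inferInstance, inferInstance, ?_, ⟨MulEquiv.refl K⟩⟩
  intro a b c
  rw [braceK]
  abel

theorem iyb_trivial (G : Type) [Group G] [Subsingleton G] : IsIYB.{0} G := by
  refine ⟨PUnit, inferInstance, inferInstance, inferInstance, ?_, ⟨?_⟩⟩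
  · intro a b c
    exact Subsingleton.elim _ _
  · exact { toFun := fun _ => PUnit.unit, invFun := fun _ => 1,
            left_inv := fun _ => Subsingleton.elim _ _, right_inv := fun _ => rfl,
            map_mul' := fun _ _ => rfl }

theorem sylow_iyb (p : ℕ) [hp : Fact p.Prime] (S : Sylow p GG) : IsIYB.{0} S := by
  have transport : ∀ (H : Subgroup GG), Nat.card H = p ^ (Nat.card GG).factorization p →
      IsIYB.{0} H → IsIYB.{0} S := by
    intro H hH hI
    let S' : Sylow p GG := Sylow.ofCard H hH
    have e : S ≃* S' := Sylow.equiv S S'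
    exact isIYB_of_equiv e hI
  have hfac : Nat.card GG = 2 ^ 3 * 3 ^ 5 := by rw [card_GG]; norm_num
  by_cases h3 : p = 3
  · subst h3
    apply transport (SemidirectProduct.inl : P →* GG).range
    · rw [← Nat.card_congr
        (MonoidHom.ofInjective (SemidirectProduct.inl_injective (φ := actHom))).toEquiv, P.card,
        hfac, Nat.factorization_mul (by norm_num) (by norm_num),
        Nat.Prime.factorization_pow Nat.prime_two, Nat.Prime.factorization_pow Nat.prime_three]
      simp
    · exact isIYB_of_equiv
        (MonoidHom.ofInjective (SemidirectProduct.inl_injective (φ := actHom))).symm iyb_P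
  · by_cases h2 : p = 2
    · subst h2
      apply transport (SemidirectProduct.inr : K →* GG).range
      · rw [← Nat.card_congr
          (MonoidHom.ofInjective (SemidirectProduct.inr_injective (φ := actHom))).toEquiv, K.card,
          hfac, Nat.factorization_mul (by norm_num) (by norm_num),
          Nat.Prime.factorization_pow Nat.prime_two, Nat.Prime.factorization_pow Nat.prime_three]
        simp
      · exact isIYB_of_equiv
          (MonoidHom.ofInjective (SemidirectProduct.inr_injective (φ := actHom))).symm iyb_K
    · have hnd : ¬ p ∣ Nat.card GG := by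
        rw [hfac]
        intro h
        rcases (Nat.Prime.dvd_mul hp.out).mp h with h | h
        · exact h2 ((Nat.prime_dvd_prime_iff_eq hp.out Nat.prime_two).mp
            (hp.out.dvd_of_dvd_pow h))
        · exact h3 ((Nat.prime_dvd_prime_iff_eq hp.out Nat.prime_three).mp
            (hp.out.dvd_of_dvd_pow h))
      have hc : Nat.card S = 1 := by
        rw [Sylow.card_eq_multiplicity, Nat.factorization_eq_zero_of_not_dvd hnd, pow_zero]
      have hs : Subsingleton S := (Nat.card_eq_one_iff_unique.mp hc).1
      exact iyb_trivial S

/-- **Theorem.** There is a finite soluble group (of order `1944`), each of whose Sylow subgroups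
is an IYB-group, which is not itself an IYB-group. -/
theorem result : ∃ (G : Type) (_ : Group G),
    Nat.card G = 2 ^ 3 * 3 ^ 5 ∧ Group.IsSolvable G ∧
    (∀ (p : ℕ) [Fact p.Prime] (S : Sylow p G), IsIYB.{0} S) ∧ ¬ IsIYB.{u} G := by
  refine ⟨GG, inferInstance, by rw [card_GG]; norm_num, solvable_GG,
    fun p _ S => sylow_iyb p S, ?_⟩
  rintro ⟨A, i1, i2, -, hA, ⟨ψ⟩⟩
  exact not_brace (A := A) (fun a b c => by
    have := hA a b c
    rw [← sub_eq_iff_eq_add] at this
    have h2 : a * (b + c) = a * b + a * c - a := by rw [← this]; abel
    rw [h2]; abel) ψ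

end Pool.Agent.Results.MP_bb5d5a_al.SylowIYB
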